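import Pool.Agent.Q286.XG.StmN
import Pool.Agent.Q214.XG.RateL
import Pool.Agent.Y23.F.Pr
import Pool.Agent.Helper242.KK.Gam1

/-! # Project EXG: trial functions of finite degree concentrated at one point of the line, L-functions -/

set_option autoImplicit false
set_option maxHeartbeats 2000000

open Complex Filter Topology Set MeasureTheory Metric
open scoped ComplexConjugate

namespace Pool.Agent.Q77.XG

open Pool.Agent
open Pool.Agent.Y23 (TT N2 Fa kap kap_bound Fa_kap TT_mul_exp TT_smul)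
open Pool.Agent.Y23.G
open H353.E (gaf)

variable [L : Y23.G.LFun]

/-- exponential decay on the line `Re s = 5 / 2` -/
lemma X_far : ∃ C : ℝ, 0 < C ∧ ∀ w : ℂ, w.re = 2 → ‖L.X (1 / 2 + w)‖ ≤ C * Real.exp (-(1 / 4 * |w.im|)) := by
  have hm := L.raw.hm
  have hN1 := L.raw.hN
  have hN0 : 0 < L.N := by linarith
  have hsum : LSeriesSummable L.b (5 / 2) := (L.raw.coef (s := (5 / 2 : ℂ)) (by
    have : (5 / 2 : ℂ).re = 5 / 2 := by norm_num
    rw [this]; norm_num)).1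
  set B0 : ℝ := ∑' n, ‖LSeries.term L.b (5 / 2) n‖ with hB0
  have hB00 : 0 ≤ B0 := tsum_nonneg fun _ => norm_nonneg _
  -- one Gamma factor
  have hcos : 0 < Real.cos 1 := Real.cos_one_pos
  have hfac : ∀ j : Fin L.m, ∃ c : ℝ, 0 < c ∧ ∀ w : ℂ, w.re = 2 → ‖Gammaℝ (1 / 2 + w - -L.a j)‖ ≤ c * Real.exp (-(1 / 2 * |w.im|)) := by
    intro j
    have hstr := L.str j
    set σ : ℝ := (5 / 2 + (L.a j).re) / 2 with hσ
    have hσ0 : 0 < σ := by rw [hσ]; linarith
    have hG0 : 0 < Real.Gamma σ := Real.Gamma_pos_of_pos hσ0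
    refine ⟨Real.pi ^ (-σ) * (Real.exp (1 / 2 * |(L.a j).im|) * Real.Gamma σ / Real.cos 1 ^ σ), by positivity, fun w hw => ?_⟩
    rw [sub_neg_eq_add, Complex.Gammaℝ_def, norm_mul]
    have e1 : ‖(Real.pi : ℂ) ^ (-(1 / 2 + w + L.a j) / 2)‖ = Real.pi ^ (-σ) := by
      rw [Complex.norm_cpow_eq_rpow_re_of_pos Real.pi_pos]
      congr 1
      rw [show (2 : ℂ) = ((2 : ℝ) : ℂ) by norm_num, Complex.div_ofReal_re, neg_re, add_re, add_re, hw, hσ]
      norm_num
      ring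
    have e2 : (1 / 2 + w + L.a j) / 2 = (σ : ℂ) + (((w.im + (L.a j).im) / 2 : ℝ) : ℂ) * I := by
      apply Complex.ext
      · rw [show (2 : ℂ) = ((2 : ℝ) : ℂ) by norm_num, Complex.div_ofReal_re, add_re, add_re, hw]
        simp [hσ]
        norm_num
      · rw [show (2 : ℂ) = ((2 : ℝ) : ℂ) by norm_num, Complex.div_ofReal_im, add_im, add_im]
        simp
    have e3 := Helper242.KK.norm_Gamma_le_of_angle (v := (w.im + (L.a j).im) / 2) hσ0 zero_le_one
      (by have := Real.pi_gt_three; linarith)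
    rw [e1, e2, mul_assoc]
    refine mul_le_mul_of_nonneg_left (e3.trans ?_) (by positivity)
    have e4 : Real.exp (-1 * |(w.im + (L.a j).im) / 2|) ≤ Real.exp (1 / 2 * |(L.a j).im|) * Real.exp (-(1 / 2 * |w.im|)) := by
      rw [← Real.exp_add]
      apply Real.exp_le_exp.2
      rw [abs_div, abs_two]
      have h6 := abs_add_le (w.im + (L.a j).im) (-(L.a j).im)
      rw [add_neg_cancel_right, abs_neg] at h6
      linarith
    calc Real.exp (-1 * |(w.im + (L.a j).im) / 2|) * Real.Gamma σ / Real.cos 1 ^ σ ≤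
          Real.exp (1 / 2 * |(L.a j).im|) * Real.exp (-(1 / 2 * |w.im|)) * Real.Gamma σ / Real.cos 1 ^ σ := by gcongr
      _ = _ := by ring
  choose c hc hcb using hfac
  -- powers against exponentials
  have hpow : ∀ x : ℝ, 0 ≤ x → (1 + x) ^ 2 ≤ 66 * Real.exp (1 / 4 * x) := by
    intro x hx
    have h1 := Real.quadratic_le_exp_of_nonneg (x := 1 / 4 * x) (by positivity)
    nlinarith
  refine ⟨L.N ^ (5 / 4 : ℝ) * (∏ j, c j) * (9 * 66) ^ L.m * (B0 + 1), by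
    have : 0 < ∏ j, c j := Finset.prod_pos fun j _ => hc j
    positivity, fun w hw => ?_⟩
  have hP0 : 0 < ∏ j, c j := Finset.prod_pos fun j _ => hc j
  set s : ℂ := 1 / 2 + w with hs
  have hsre : s.re = 5 / 2 := by rw [hs, add_re, hw]; norm_num
  have hL1 : ‖LSeries L.b s‖ ≤ B0 := by
    have h3 : ∀ n, ‖LSeries.term L.b s n‖ ≤ ‖LSeries.term L.b (5 / 2) n‖ := fun n =>
      LSeries.norm_term_le_of_re_le_re L.b (by
        have : (5 / 2 : ℂ).re = 5 / 2 := by norm_num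
        rw [this, hsre]) n
    have h4 : Summable fun n => ‖LSeries.term L.b (5 / 2) n‖ := hsum.norm
    have h5 : Summable fun n => ‖LSeries.term L.b s n‖ :=
      Summable.of_nonneg_of_le (fun _ => norm_nonneg _) h3 h4
    unfold LSeries
    exact (norm_tsum_le_tsum_norm h5).trans (h5.tsum_le_tsum h3 h4)
  have hgam : ‖∏ j, Gammaℝ (s - -L.a j)‖ ≤ (∏ j, c j) * Real.exp (-(1 / 2 * |w.im|)) ^ L.m := by
    rw [norm_prod]
    refine (Finset.prod_le_prod (fun j _ => norm_nonneg _) fun j _ => hcb j w hw).trans (le_of_eq ?_)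
    rw [Finset.prod_mul_distrib, Finset.prod_const, Finset.card_univ, Fintype.card_fin]
  have hNn : ‖(L.N : ℂ) ^ (s / 2)‖ ≤ L.N ^ (5 / 4 : ℝ) := by
    rw [Complex.norm_cpow_eq_rpow_re_of_pos hN0]
    refine Real.rpow_le_rpow_of_exponent_le hN1 ?_
    have e : (s / 2).re = 5 / 4 := by
      rw [show (2 : ℂ) = ((2 : ℝ) : ℂ) by norm_num, Complex.div_ofReal_re, hsre]; norm_num
    rw [e]
  have hy := abs_nonneg w.im
  have hnw : ‖w‖ ≤ 2 + |w.im| := by
    have := Complex.norm_le_abs_re_add_abs_im w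
    rwa [hw, abs_two] at this
  have h1 : ‖s‖ ≤ 3 * (1 + |w.im|) := by
    have h2 : ‖s‖ ≤ 1 / 2 + ‖w‖ := by
      rw [hs]
      refine (norm_add_le _ _).trans ?_
      norm_num
    linarith
  have h2 : ‖s - 1‖ ≤ 3 * (1 + |w.im|) := by
    have h2 : ‖s - 1‖ ≤ 1 / 2 + ‖w‖ := by
      have : s - 1 = -(1 / 2) + w := by rw [hs]; ring
      rw [this]
      refine (norm_add_le _ _).trans ?_
      norm_num
    linarith
  have hss : ‖(s * (s - 1)) ^ L.r‖ ≤ (9 * (1 + |w.im|) ^ 2) ^ L.m := by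
    rw [norm_pow, norm_mul]
    have h3 : ‖s‖ * ‖s - 1‖ ≤ 9 * (1 + |w.im|) ^ 2 := by
      calc ‖s‖ * ‖s - 1‖ ≤ (3 * (1 + |w.im|)) * (3 * (1 + |w.im|)) := by gcongr
        _ = _ := by ring
    have h4 : 1 ≤ 9 * (1 + |w.im|) ^ 2 := by nlinarith
    calc (‖s‖ * ‖s - 1‖) ^ L.r ≤ (9 * (1 + |w.im|) ^ 2) ^ L.r := by gcongr
      _ ≤ _ := pow_le_pow_right₀ h4 L.raw.hr
  rw [show L.X s = gaf L.N (fun j => -L.a j) s * ((s * (s - 1)) ^ L.r * LSeries L.b s) from
    L.raw.eq' (by rw [hsre]; norm_num)]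
  unfold gaf
  rw [norm_mul, norm_mul, norm_mul]
  have h5 : Real.exp (-(1 / 2 * |w.im|)) ^ L.m * (9 * (1 + |w.im|) ^ 2) ^ L.m ≤ (9 * 66) ^ L.m * Real.exp (-(1 / 4 * |w.im|)) := by
    have h6 : Real.exp (-(1 / 2 * |w.im|)) * (9 * (1 + |w.im|) ^ 2) ≤ 9 * 66 * Real.exp (-(1 / 4 * |w.im|)) := by
      have h7 := mul_le_mul_of_nonneg_left (hpow |w.im| hy) (Real.exp_pos (-(1 / 2 * |w.im|))).le
      have h8 : Real.exp (-(1 / 2 * |w.im|)) * (66 * Real.exp (1 / 4 * |w.im|)) = 66 * Real.exp (-(1 / 4 * |w.im|)) := by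
        rw [mul_left_comm, ← Real.exp_add]; congr 2; ring
      rw [h8] at h7
      linarith
    have h9 : Real.exp (-(1 / 4 * |w.im|)) ≤ 1 := by
      rw [Real.exp_le_one_iff]; linarith
    calc _ = (Real.exp (-(1 / 2 * |w.im|)) * (9 * (1 + |w.im|) ^ 2)) ^ L.m := (mul_pow _ _ _).symm
      _ ≤ (9 * 66 * Real.exp (-(1 / 4 * |w.im|))) ^ L.m := by gcongr
      _ = (9 * 66) ^ L.m * Real.exp (-(1 / 4 * |w.im|)) ^ L.m := by rw [mul_pow]
      _ ≤ (9 * 66) ^ L.m * Real.exp (-(1 / 4 * |w.im|)) ^ 1 := by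
          refine mul_le_mul_of_nonneg_left ?_ (by positivity)
          exact pow_le_pow_of_le_one (Real.exp_pos _).le h9 hm
      _ = _ := by rw [pow_one]
  calc ‖(L.N : ℂ) ^ (s / 2)‖ * ‖∏ j, Gammaℝ (s - -L.a j)‖ * (‖(s * (s - 1)) ^ L.r‖ * ‖LSeries L.b s‖)
      ≤ L.N ^ (5 / 4 : ℝ) * ((∏ j, c j) * Real.exp (-(1 / 2 * |w.im|)) ^ L.m) * ((9 * (1 + |w.im|) ^ 2) ^ L.m * (B0 + 1)) := by
        have hL2 : ‖LSeries L.b s‖ ≤ B0 + 1 := by linarith
        gcongr
    _ = L.N ^ (5 / 4 : ℝ) * (∏ j, c j) * (B0 + 1) * (Real.exp (-(1 / 2 * |w.im|)) ^ L.m * (9 * (1 + |w.im|) ^ 2) ^ L.m) := by ring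
    _ ≤ L.N ^ (5 / 4 : ℝ) * (∏ j, c j) * (B0 + 1) * ((9 * 66) ^ L.m * Real.exp (-(1 / 4 * |w.im|))) := by gcongr
    _ = _ := by ring

/-- exponential decay in the strip -/
lemma X_decay : ∃ C : ℝ, 0 < C ∧ ∀ w : ℂ, |w.re| ≤ 2 → ‖L.X (1 / 2 + w)‖ ≤ C * Real.exp (-(1 / 4 * |w.im|)) := by
  obtain ⟨C, hC, hfar⟩ := X_far (L := L)
  obtain ⟨A, hA, hXb⟩ := X_all (L := L)
  have hedge : ∀ w : ℂ, |w.re| = 2 → ‖L.X (1 / 2 + w)‖ ≤ C * Real.exp (-(1 / 4 * |w.im|)) := by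
    intro w hw
    rcases le_total 0 w.re with h | h
    · rw [abs_of_nonneg h] at hw
      exact hfar w hw
    · rw [abs_of_nonpos h] at hw
      rw [X_reflect]
      have h1 := hfar (-conj w) (by simpa using hw)
      simpa using h1
  obtain ⟨M, hM⟩ : ∃ M : ℝ, ∀ t ∈ Icc (0 : ℝ) 2, Real.exp (Ex A t) ≤ M := by
    have hcont : ContinuousOn (fun t : ℝ => Real.exp (Ex A t)) (Icc 0 2) := by
      unfold Ex
      refine Real.continuous_exp.comp_continuousOn ?_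
      refine ContinuousOn.add (ContinuousOn.add continuousOn_const (ContinuousOn.mul continuousOn_const ?_)) ?_
      · refine ContinuousOn.log (by fun_prop) fun t ht => ?_
        have := ht.1
        linarith
      · refine Continuous.continuousOn ?_
        have h1 : (fun t : ℝ => (L.m : ℝ) / 2 * (t * (Real.log t - kp))) = fun t : ℝ => (L.m : ℝ) / 2 * (t * Real.log t - t * kp) := by
          funext t; ring
        rw [h1]
        exact continuous_const.mul (Real.continuous_mul_log.sub (by fun_prop))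
    obtain ⟨M, hM⟩ := isCompact_Icc.exists_bound_of_continuousOn hcont
    exact ⟨M, fun t ht => (le_abs_self _).trans (hM t ht)⟩
  have hM0 : 0 ≤ M := (Real.exp_pos _).le.trans (hM 0 ⟨le_rfl, by norm_num⟩)
  -- one sign
  have key : ∀ ς : ℝ, |ς| = 1 / 4 → ∀ w : ℂ, |w.re| ≤ 2 → ‖L.X (1 / 2 + w)‖ * Real.exp (ς * w.im) ≤ C := by
    intro ς hς w hw
    set f : ℂ → ℂ := fun z => L.X (1 / 2 + z) * cexp (-(ς * I * z)) with hf
    have hfn : ∀ z, ‖f z‖ = ‖L.X (1 / 2 + z)‖ * Real.exp (ς * z.im) := by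
      intro z
      simp only [hf]
      rw [norm_mul, Complex.norm_exp]
      congr 2
      simp
    have hfd : Differentiable ℂ f := by
      have : Differentiable ℂ (fun z : ℂ => L.X (1 / 2 + z)) := Xd.comp (by fun_prop)
      exact this.mul (by fun_prop)
    have hle : ∀ y : ℝ, ς * y ≤ 1 / 4 * |y| := by
      intro y
      calc ς * y ≤ |ς * y| := le_abs_self _
        _ = _ := by rw [abs_mul, hς]
    have hed : ∀ z : ℂ, |z.re| = 2 → ‖f z‖ ≤ C := by
      intro z hz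
      rw [hfn]
      calc ‖L.X (1 / 2 + z)‖ * Real.exp (ς * z.im) ≤ (C * Real.exp (-(1 / 4 * |z.im|))) * Real.exp (1 / 4 * |z.im|) := by
            exact mul_le_mul (hedge z hz) (Real.exp_le_exp.2 (hle _)) (Real.exp_pos _).le (by positivity)
        _ = C := by rw [mul_assoc, ← Real.exp_add, neg_add_cancel, Real.exp_zero, mul_one]
    have hPL := PhragmenLindelof.vertical_strip (a := -2) (b := 2) (f := f) (C := C) (z := w)
      hfd.diffContOnCl ?_ (fun z hz => hed z (by rw [hz]; norm_num)) (fun z hz => hed z (by rw [hz]; norm_num))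
      (abs_le.1 hw).1 (abs_le.1 hw).2
    · rwa [hfn] at hPL
    · refine ⟨1 / 2, by
        have := Real.pi_gt_three
        linarith, 1, ?_⟩
      refine Asymptotics.IsBigO.of_bound M ?_
      refine (Filter.Eventually.filter_mono inf_le_right ?_)
      rw [Filter.eventually_principal]
      intro z hz
      have hz1 : -2 < z.re ∧ z.re < 2 := hz
      have hz2 : |z.re| ≤ 2 := (abs_lt.2 hz1).le
      rw [hfn, Real.norm_eq_abs, abs_of_pos (Real.exp_pos _)]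
      have h1 : ‖L.X (1 / 2 + z)‖ ≤ M := by
        refine (hXb z).trans ?_
        refine (div_le_self (Real.exp_pos _).le (by nlinarith [sq_nonneg z.im])).trans ?_
        exact hM |z.re| ⟨abs_nonneg _, hz2⟩
      refine mul_le_mul h1 (Real.exp_le_exp.2 ?_) (Real.exp_pos _).le hM0
      have h2 := hle z.im
      have h3 := Real.add_one_le_exp (1 / 2 * |z.im|)
      have h4 := abs_nonneg z.im
      linarith
  refine ⟨C, hC, fun w hw => ?_⟩
  obtain ⟨ς, h1, h2⟩ : ∃ ς : ℝ, |ς| = 1 / 4 ∧ ς * w.im = 1 / 4 * |w.im| := by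
    rcases le_total 0 w.im with h | h
    · exact ⟨1 / 4, abs_of_pos (by norm_num), by rw [abs_of_nonneg h]⟩
    · exact ⟨-(1 / 4), by rw [abs_neg]; exact abs_of_pos (by norm_num), by rw [abs_of_nonpos h]; ring⟩
  have h3 := key ς h1 w hw
  rw [h2] at h3
  rw [Real.exp_neg, ← div_eq_mul_inv, le_div_iff₀ (Real.exp_pos _)]
  exact h3

/-- the function without the zero at `w0` -/
lemma nozero2 {A : ℝ} (hA : 0 ≤ A) (hb : ∀ w : ℂ, ‖L.X (1 / 2 + w)‖ ≤ Real.exp (Ex A |w.re|) / (1 + w.im ^ 2))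
    (w0 : ℂ) : ∃ (H : ℂ → ℂ) (K : ℝ), Differentiable ℂ H ∧ 0 < K ∧
    (∀ w, ‖H w‖ ≤ K * Real.exp (Ex A |w.re|) / (1 + w.im ^ 2)) ∧ (∀ w, w ≠ w0 → L.X (1 / 2 + w) = 0 → H w = 0) ∧
    H w0 ≠ 0 ∧ ∀ w, 1 ≤ ‖w - w0‖ → ‖H w‖ ≤ ‖L.X (1 / 2 + w)‖ := by
  obtain ⟨H, hHd, hG0, hrel⟩ := factor_zero (L := L) (w0 := w0)
  set k := H370.mult L.X (1 / 2 + w0) with hk
  have hfar : ∀ w, 1 ≤ ‖w - w0‖ → ‖H w‖ ≤ ‖L.X (1 / 2 + w)‖ := by
    intro w h
    have h5 : ‖L.X (1 / 2 + w)‖ = ‖w - w0‖ ^ k * ‖H w‖ := by rw [hrel w, norm_mul, norm_pow]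
    rw [h5]
    have := one_le_pow₀ h (n := k)
    have := norm_nonneg (H w)
    nlinarith
  obtain ⟨M0, hM0⟩ := (isCompact_closedBall w0 1).exists_bound_of_continuousOn hHd.continuous.continuousOn
  set R : ℝ := ‖w0‖ + 1 with hR
  have hR0 : 0 < R := by positivity
  set q : ℝ := Real.exp (A - L.m / 2 * (1 + R * |kp|)) / (1 + R ^ 2) with hq
  have hq0 : 0 < q := by positivity
  refine ⟨H, max 1 (|M0| / q), hHd, by positivity, fun w => ?_, fun w hw => ?_, hG0, hfar⟩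
  · rcases le_total 1 ‖w - w0‖ with h | h
    · refine ((hfar w h).trans (hb w)).trans ?_
      refine div_le_div_of_nonneg_right ?_ (by positivity)
      have := le_max_left 1 (|M0| / q)
      have := Real.exp_pos (Ex A |w.re|)
      nlinarith
    · have h1 := hM0 w (by rw [mem_closedBall, dist_eq_norm]; exact h)
      have hwn : ‖w‖ ≤ R := by
        have : w = (w - w0) + w0 := by ring
        rw [this]
        exact (norm_add_le _ _).trans (by linarith)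
      have hre : |w.re| ≤ R := (Complex.abs_re_le_norm w).trans hwn
      have him : w.im ^ 2 ≤ R ^ 2 := by
        rw [← sq_abs]
        exact pow_le_pow_left₀ (abs_nonneg _) ((Complex.abs_im_le_norm w).trans hwn) 2
      have h2 := Ex_low (L := L) hA (abs_nonneg w.re) hre
      have h3 : q ≤ Real.exp (Ex A |w.re|) / (1 + w.im ^ 2) := by
        rw [hq]
        gcongr
      calc ‖H w‖ ≤ |M0| := h1.trans (le_abs_self _)
        _ = |M0| / q * q := by field_simp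
        _ ≤ max 1 (|M0| / q) * (Real.exp (Ex A |w.re|) / (1 + w.im ^ 2)) := by
            gcongr
            exact le_max_right _ _
        _ = _ := by ring
  · intro h
    have h1 := hrel w
    rw [h] at h1
    rcases mul_eq_zero.1 h1.symm with h2 | h2
    · exact absurd h2 (pow_ne_zero _ (sub_ne_zero.2 hw))
    · exact h2

omit L in
lemma sq_bound {x S y : ℝ} (hx : 0 ≤ x) (h : x ≤ S / (1 + |y|)) : x ^ 2 ≤ S ^ 2 * (1 / (1 + (y - 0) ^ 2)) := by
  rw [sub_zero]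
  calc x ^ 2 ≤ (S / (1 + |y|)) ^ 2 := pow_le_pow_left₀ hx h 2
    _ = S ^ 2 * (1 / (1 + |y|) ^ 2) := by field_simp
    _ ≤ _ := by
        refine mul_le_mul_of_nonneg_left ?_ (by positivity)
        apply one_div_le_one_div_of_le (by positivity)
        rw [← sq_abs y]
        nlinarith [abs_nonneg y]

omit L in
/-- the weights of the two convolutions -/
lemma wt4 {Ck x y γ : ℝ} (h : x ≤ Ck / (1 + (y - γ) ^ 2)) (hx : 0 ≤ x) :
    x ^ 2 ≤ 4 * (1 + |γ|) ^ 4 * Ck ^ 2 / (1 + |y|) ^ 4 := by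
  have h1 : 1 + |y| ≤ (1 + |γ|) * (1 + |y - γ|) := F.wt2 y γ
  have h2 : (1 + |y - γ|) ^ 2 ≤ 2 * (1 + (y - γ) ^ 2) := by
    rw [← sq_abs (y - γ)]
    nlinarith [sq_nonneg (1 - |y - γ|)]
  have h3 : (1 + |y|) ^ 4 ≤ 4 * (1 + |γ|) ^ 4 * (1 + (y - γ) ^ 2) ^ 2 := by
    have h4 : (1 + |y - γ|) ^ 4 ≤ (2 * (1 + (y - γ) ^ 2)) ^ 2 := by
      have : (1 + |y - γ|) ^ 4 = ((1 + |y - γ|) ^ 2) ^ 2 := by ring
      rw [this]
      exact pow_le_pow_left₀ (by positivity) h2 2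
    calc (1 + |y|) ^ 4 ≤ ((1 + |γ|) * (1 + |y - γ|)) ^ 4 := pow_le_pow_left₀ (by positivity) h1 4
      _ = (1 + |γ|) ^ 4 * (1 + |y - γ|) ^ 4 := by ring
      _ ≤ (1 + |γ|) ^ 4 * (2 * (1 + (y - γ) ^ 2)) ^ 2 := mul_le_mul_of_nonneg_left h4 (by positivity)
      _ = _ := by ring
  have h5 : x ^ 2 ≤ Ck ^ 2 / (1 + (y - γ) ^ 2) ^ 2 := by
    rw [← div_pow]
    exact pow_le_pow_left₀ hx h 2
  refine h5.trans ?_
  rw [div_le_div_iff₀ (by positivity) (by positivity)]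
  calc Ck ^ 2 * (1 + |y|) ^ 4 ≤ Ck ^ 2 * (4 * (1 + |γ|) ^ 4 * (1 + (y - γ) ^ 2) ^ 2) :=
        mul_le_mul_of_nonneg_left h3 (sq_nonneg _)
    _ = _ := by ring

theorem rateLN (w1 : ℂ) (hw1 : w1.re = 0) {c : ℝ} (hc : c < 2 * cc (L := L)) : ∃ C K : ℝ, ∀ᶠ a : ℝ in atTop, ∀ ν : ℕ∞,
    Q286.XG.BigE (fun a => Real.exp (2 * a / L.m)) K a ν → ∃ G : ℝ → ℂ,
    F.Hn a ν G ∧ Y23.TT G w1 = 1 ∧ ‖Y23.TT G 0‖ ≤ C ∧
    Y23.G.SS G ≤ (Q286.XG.mc (1 / 2 + w1) : ℝ) + Real.exp (-(c * Real.exp (2 * a / L.m))) := by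
  have hcc := cc_pos (L := L)
  have hm1 := m_one (L := L)
  have hpi := Real.pi_gt_three
  obtain ⟨η, hη, hcη⟩ := exists_eta' (L := L) (c := c / 2) (by linarith)
  have hη4 : 0 < η / 4 := by positivity
  obtain ⟨A, hA, hXb⟩ := X_all (L := L)
  obtain ⟨CX, hCX, hdecay⟩ := X_decay (L := L)
  obtain ⟨H, K, hH, hK, hHb, hHz, hH0, hHfar⟩ := nozero2 hA hXb w1
  obtain ⟨B, C, hB, hC, hcut⟩ := cut (L := L) hA hK hH hHb (R := 1) zero_le_one
  obtain ⟨Ck, hCk, hkb⟩ := kap_bound hη4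
  obtain ⟨C0, hC0, hproj⟩ := F.proj
  set Z : ℝ := ∑' ρ : Zt, (mu ρ : ℝ) * (1 / (1 + ((ρ : ℂ).im - 0) ^ 2)) with hZ
  have hZ0 : 0 ≤ Z := tsum_nonneg fun ρ => by positivity
  have hk0 := TT_kap_zero hη4
  have hp : 0 < ‖H w1‖ := norm_pos_iff.2 hH0
  have hp2 : 0 < ‖TT (kap (η / 4)) 0‖ := norm_pos_iff.2 hk0
  set Γ0 : ℝ := 4 * (1 + |w1.im|) ^ 4 * Ck ^ 2 with hΓ0
  have hΓ00 : 0 < Γ0 := by positivity
  set D : ℝ := C * Γ0 + C0 * ((CX + C) * Γ0) with hD
  have hD0 : 0 < D := by positivity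
  set c1 : ℝ := ‖H w1‖ / 2 * ‖TT (kap (η / 4)) 0‖ ^ 2 / 2 with hc1d
  have hc1 : 0 < c1 := by positivity
  have hc0 : (0 : ℝ) < cc * Real.exp (-(2 * η / L.m)) := by positivity
  obtain ⟨A1, hA1, hlim1⟩ := tau_lim (L := L) (B := B + 3) (C := C * (2 / ‖H w1‖)) (c := 0) (η := η) (by linarith) (by positivity) hc0
  obtain ⟨A2, hA2, hlim2⟩ := tau_lim (L := L) (B := B + 3) (C := D / c1) (c := 0) (η := η) (by linarith) (by positivity) hc0
  obtain ⟨A3, hA3, hlim3⟩ := tau_lim (L := L) (B := B + 3) (C := Real.sqrt (D ^ 2 * Z / c1 ^ 2 + 1)) (c := c / 2) (η := η)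
    (by linarith) (by positivity) hcη
  have hE : Tendsto (fun a : ℝ => 2 * Real.pi * cc * Real.exp (2 * a / L.m)) atTop atTop := by
    refine Tendsto.const_mul_atTop (by positivity) (Real.tendsto_exp_atTop.comp ?_)
    exact (tendsto_id.const_mul_atTop (by norm_num : (0 : ℝ) < 2)).atTop_div_const (by linarith)
  refine ⟨((‖H 0‖ + ‖H w1‖ / 2) * Γ0 + c1) / c1, 2 * cc, ?_⟩
  filter_upwards [eventually_ge_atTop (max (max A1 A2) (max A3 (η + 1))), hE.eventually_ge_atTop (|w1.im| + 1)] with a ha haE ν hν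
  have haA1 : A1 ≤ a := le_of_max_le_left (le_of_max_le_left ha)
  have haA2 : A2 ≤ a := le_of_max_le_right (le_of_max_le_left ha)
  have haA3 : A3 ≤ a := le_of_max_le_left (le_of_max_le_right ha)
  have haη : η + 1 ≤ a := le_of_max_le_right (le_of_max_le_right ha)
  have ha1 : 1 ≤ a := by linarith
  have ha0 : 0 < a := by linarith
  obtain ⟨f, hf, hfb⟩ := hcut (a - η) (by linarith)
  set E : ℝ := Real.exp (2 * a / L.m) with hEd
  have hE0 : 0 < E := Real.exp_pos _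
  set τ := Real.exp (B * (1 + a) - cc * Real.exp (2 * (a - η) / L.m)) with hτ
  have hτ0 : 0 < τ := Real.exp_pos _
  set τ1 := Real.exp ((B + 3) * (1 + a) - cc * Real.exp (2 * (a - η) / L.m)) with hτ1
  have hτ10 : 0 < τ1 := Real.exp_pos _
  have hττ : a ^ 2 * Real.exp a * τ ≤ τ1 := by
    have h1 := le_exp_one a
    have h2 : a ^ 2 ≤ Real.exp (1 + a) ^ 2 := pow_le_pow_left₀ ha0.le h1 2
    have h3 : Real.exp a ≤ Real.exp (1 + a) := Real.exp_le_exp.2 (by linarith)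
    have h4 : τ1 = Real.exp (1 + a) ^ 2 * Real.exp (1 + a) * τ := by
      rw [hτ1, hτ, ← Real.exp_nat_mul, ← Real.exp_add, ← Real.exp_add]
      congr 1
      push_cast
      ring
    rw [h4]
    gcongr
  have hττ' : τ ≤ τ1 := by
    refine le_trans ?_ hττ
    have h1 : 1 ≤ a ^ 2 := one_le_pow₀ ha1
    have h2 : 1 ≤ Real.exp a := Real.one_le_exp ha0.le
    nlinarith [mul_le_mul h1 h2 zero_le_one (by positivity : (0 : ℝ) ≤ a ^ 2)]
  have hτE : Real.exp (-(cc * E)) ≤ τ := by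
    apply Real.exp_le_exp.2
    have h1 : Real.exp (2 * (a - η) / L.m) ≤ E := by
      apply Real.exp_le_exp.2
      refine div_le_div_of_nonneg_right (by linarith) (by linarith)
    have h2 := mul_le_mul_of_nonneg_left h1 hcc.le
    have h3 : 0 ≤ B * (1 + a) := by positivity
    linarith
  have hfb' : ∀ w : ℂ, |w.re| ≤ 1 → ‖TT f w - H w‖ ≤ C * τ := by
    intro w hw
    refine (hfb w hw).trans (mul_le_mul_of_nonneg_left (Real.exp_le_exp.2 ?_) hC.le)
    nlinarith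
  have hfn : ∀ w : ℂ, |w.re| ≤ 1 → ‖TT f w‖ ≤ ‖H w‖ + C * τ := by
    intro w hw
    have e : TT f w = H w + (TT f w - H w) := by ring
    calc ‖TT f w‖ = ‖H w + (TT f w - H w)‖ := by rw [← e]
      _ ≤ ‖H w‖ + ‖TT f w - H w‖ := norm_add_le _ _
      _ ≤ _ := by linarith [hfb' w hw]
  have hCτ : C * τ ≤ ‖H w1‖ / 2 := by
    have h8 := hlim1 a haA1
    rw [zero_mul, neg_zero, Real.exp_zero] at h8
    have e : C * (2 / ‖H w1‖) * τ1 = C * τ1 / (‖H w1‖ / 2) := by field_simp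
    rw [e, div_le_one (by positivity)] at h8
    exact (mul_le_mul_of_nonneg_left hττ' hC.le).trans h8
  have hDτ : D * τ1 ≤ c1 := by
    have h8 := hlim2 a haA2
    rw [zero_mul, neg_zero, Real.exp_zero, div_mul_eq_mul_div, div_le_one hc1] at h8
    exact h8
  -- the kernel
  set κ : ℝ → ℂ := fun x => kap (η / 4) x * cexp (-w1 * x) with hκ
  have hκF : Fa (η / 2) κ := by
    have := (Fa_kap hη4).mul_bdd (g := fun x : ℝ => cexp (-w1 * x)) (by fun_prop)
    rwa [show 2 * (η / 4) = η / 2 by ring] at this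
  have hκT : ∀ w, TT κ w = TT (kap (η / 4)) (-w1 + w) := fun w => TT_mul_exp _ _ _
  have hκb : ∀ x, ‖κ x‖ ≤ 3 := by
    intro x
    simp only [hκ]
    rw [norm_mul, Complex.norm_exp]
    have : (-w1 * (x : ℂ)).re = 0 := by
      rw [Complex.re_mul_ofReal, Complex.neg_re, hw1]; ring
    rw [this, Real.exp_zero, mul_one]
    exact kap_bdd hη4 x
  obtain ⟨g0, hg0, hgT0⟩ := conv_TT hf hκF hκb
  obtain ⟨g, hg, hgT1⟩ := conv_TT hg0 hκF hκb
  rw [show a - η + η / 2 + η / 2 = a by ring] at hg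
  have hgT : ∀ w, TT g w = TT f w * TT κ w ^ 2 := fun w => by rw [hgT1, hgT0]; ring
  have hκ2 : ∀ w : ℂ, |w.re| ≤ 1 → ‖TT κ w‖ ^ 2 ≤ Γ0 / (1 + |w.im|) ^ 4 := by
    intro w hre
    refine wt4 (γ := w1.im) ?_ (norm_nonneg _)
    rw [hκT]
    have h3 := hkb (-w1 + w) (by rw [Complex.add_re, Complex.neg_re, hw1, neg_zero, zero_add]; exact hre)
    have h4 : (-w1 + w).im = w.im - w1.im := by simp; ring
    rwa [h4] at h3
  have hgn : ∀ w : ℂ, |w.re| ≤ 1 → ‖TT g w‖ ≤ ‖TT f w‖ * (Γ0 / (1 + |w.im|) ^ 4) := by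
    intro w hre
    rw [hgT, norm_mul, norm_pow]
    exact mul_le_mul_of_nonneg_left (hκ2 w hre) (norm_nonneg _)
  have hone : ∀ y : ℝ, 1 ≤ 1 + |y| := fun y => by linarith [abs_nonneg y]
  -- the form domain
  have hgd : Hd a g := by
    refine F.Hd_of_bound hg (C := (K * Real.exp (Ex A 0) + C * τ) * Γ0) (c := 0) fun v => ?_
    have h1 := hgn (v * I) (by simp)
    have h2 := hfn (v * I) (by simp)
    have h3 := hHb (v * I)
    have e1 : ((v : ℂ) * I).im = v := by simp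
    have e2 : ((v : ℂ) * I).re = 0 := by simp
    rw [e1] at h1 h3
    rw [e2, abs_zero] at h3
    rw [sub_zero]
    have h4 : ‖H (v * I)‖ ≤ K * Real.exp (Ex A 0) :=
      h3.trans (div_le_self (by positivity) (by nlinarith [sq_nonneg v]))
    have h5 : (1 + |v|) * (Γ0 / (1 + |v|) ^ 4) ≤ Γ0 := by
      rw [mul_div_assoc', div_le_iff₀ (by positivity), mul_comm]
      refine mul_le_mul_of_nonneg_left ?_ hΓ00.le
      exact le_self_pow₀ (hone v) (by norm_num)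
    calc (1 + |v|) * ‖TT g (v * I)‖ ≤ (1 + |v|) * (‖TT f (v * I)‖ * (Γ0 / (1 + |v|) ^ 4)) :=
          mul_le_mul_of_nonneg_left h1 (by positivity)
      _ = ‖TT f (v * I)‖ * ((1 + |v|) * (Γ0 / (1 + |v|) ^ 4)) := by ring
      _ ≤ (K * Real.exp (Ex A 0) + C * τ) * Γ0 := mul_le_mul (by linarith) h5 (by positivity) (by positivity)
  -- the nodes
  set τp : ℝ := (CX + C) * Γ0 * τ with hτp
  have hτp0 : 0 ≤ τp := by positivity
  have hnodes : ∀ k : ℤ, ν < (k.natAbs : ℕ∞) → ‖TT g (F.nd a k)‖ ≤ τp / (1 + |(F.nd a k).im|) ^ 3 := by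
    intro k hk
    have h1 : 2 * cc * a * E ≤ (k.natAbs : ℝ) := by
      have h2 : ((⌈2 * cc * a * E⌉₊ : ℕ) : ℕ∞) < ((k.natAbs : ℕ) : ℕ∞) := lt_of_le_of_lt hν hk
      have h3 : ⌈2 * cc * a * E⌉₊ < k.natAbs := by exact_mod_cast h2
      exact (Nat.le_ceil _).trans (by exact_mod_cast h3.le)
    have h2 : 2 * Real.pi * cc * E ≤ |(F.nd a k).im| := by
      rw [F.nd_im, abs_div, abs_mul, abs_of_pos ha0, abs_of_pos (by linarith : (0 : ℝ) < Real.pi), le_div_iff₀ ha0]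
      rw [Nat.cast_natAbs, Int.cast_abs] at h1
      have := mul_le_mul_of_nonneg_left h1 (by linarith : (0 : ℝ) ≤ Real.pi)
      linarith
    set w : ℂ := F.nd a k with hw
    have hwre : w.re = 0 := F.nd_re a k
    have h3 : 1 ≤ ‖w - w1‖ := by
      have h4 := Complex.abs_im_le_norm (w - w1)
      rw [Complex.sub_im] at h4
      have h5 := abs_sub_abs_le_abs_sub w.im w1.im
      linarith
    have h4 : ‖H w‖ ≤ CX * τ := by
      refine (hHfar w h3).trans ((hdecay w (by rw [hwre]; norm_num)).trans ?_)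
      refine mul_le_mul_of_nonneg_left (le_trans (Real.exp_le_exp.2 ?_) hτE) hCX.le
      have h5 : 0 < cc * E := by positivity
      nlinarith
    have h5 := hfn w (by rw [hwre]; norm_num)
    refine (hgn w (by rw [hwre]; norm_num)).trans ?_
    have h6 : Γ0 / (1 + |w.im|) ^ 4 ≤ Γ0 / (1 + |w.im|) ^ 3 := by
      refine div_le_div_of_nonneg_left hΓ00.le (by positivity) ?_
      exact pow_le_pow_right₀ (hone _) (by norm_num)
    calc ‖TT f w‖ * (Γ0 / (1 + |w.im|) ^ 4) ≤ ((CX + C) * τ) * (Γ0 / (1 + |w.im|) ^ 3) :=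
          mul_le_mul (by linarith) h6 (by positivity) (by positivity)
      _ = _ := by rw [hτp]; ring
  obtain ⟨g', hg', hgg, -⟩ := hproj a ν g τp ha1 hτp0 hgd hnodes
  have hgn' : ∀ w : ℂ, |w.re| ≤ 1 → ‖TT g' w‖ ≤ ‖TT g w‖ + C0 * ((CX + C) * Γ0) * τ1 / (1 + |w.im|) := by
    intro w hre
    have h1 := hgg w
    have h2 : C0 * a ^ 2 * τp * Real.exp (a * |w.re|) ≤ C0 * ((CX + C) * Γ0) * τ1 := by
      have h3 : Real.exp (a * |w.re|) ≤ Real.exp a := Real.exp_le_exp.2 (by nlinarith)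
      calc C0 * a ^ 2 * τp * Real.exp (a * |w.re|) ≤ C0 * a ^ 2 * τp * Real.exp a :=
            mul_le_mul_of_nonneg_left h3 (by positivity)
        _ = C0 * ((CX + C) * Γ0) * (a ^ 2 * Real.exp a * τ) := by rw [hτp]; ring
        _ ≤ _ := mul_le_mul_of_nonneg_left hττ (by positivity)
    have h4 := norm_sub_norm_le (TT g' w) (TT g w)
    rw [norm_sub_rev] at h4
    have h5 := h1.trans (div_le_div_of_nonneg_right h2 (by positivity : (0 : ℝ) ≤ 1 + |w.im|))
    linarith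
  -- the value at the point
  have hval1 : c1 ≤ ‖TT g' w1‖ := by
    have h5 : TT κ w1 = TT (kap (η / 4)) 0 := by rw [hκT, neg_add_cancel]
    have h6 := hfb' w1 (by rw [hw1, abs_zero]; exact zero_le_one)
    have h10 : ‖H w1‖ ≤ ‖TT f w1‖ + ‖TT f w1 - H w1‖ := by
      have e : H w1 = TT f w1 - (TT f w1 - H w1) := by ring
      calc ‖H w1‖ = ‖TT f w1 - (TT f w1 - H w1)‖ := by rw [← e]
        _ ≤ _ := norm_sub_le _ _
    have h7 : 2 * c1 ≤ ‖TT g w1‖ := by
      rw [hgT, norm_mul, norm_pow, h5]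
      have : 2 * c1 = ‖H w1‖ / 2 * ‖TT (kap (η / 4)) 0‖ ^ 2 := by rw [hc1d]; ring
      rw [this]
      refine mul_le_mul_of_nonneg_right ?_ (by positivity)
      linarith
    have h8 := hgg w1
    rw [hw1, abs_zero, mul_zero, Real.exp_zero, mul_one] at h8
    have h9 : C0 * a ^ 2 * τp / (1 + |w1.im|) ≤ c1 := by
      refine (div_le_self (by positivity) (hone _)).trans (le_trans ?_ hDτ)
      have h11 : a ^ 2 * τ ≤ τ1 := by
        refine le_trans ?_ hττ
        have h2 : 1 ≤ Real.exp a := Real.one_le_exp ha0.le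
        have : 0 ≤ a ^ 2 * τ := by positivity
        nlinarith
      calc C0 * a ^ 2 * τp = C0 * ((CX + C) * Γ0) * (a ^ 2 * τ) := by rw [hτp]; ring
        _ ≤ C0 * ((CX + C) * Γ0) * τ1 := mul_le_mul_of_nonneg_left h11 (by positivity)
        _ ≤ D * τ1 := by
            refine mul_le_mul_of_nonneg_right ?_ hτ10.le
            rw [hD]
            have : 0 < C * Γ0 := by positivity
            linarith
    have h12 := norm_sub_norm_le (TT g w1) (TT g' w1)
    linarith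
  have hg1 : 0 < ‖TT g' w1‖ := hc1.trans_le hval1
  have hg1' : TT g' w1 ≠ 0 := norm_pos_iff.1 hg1
  set G : ℝ → ℂ := fun x => (TT g' w1)⁻¹ * g' x with hG
  have hGT : ∀ w, TT G w = (TT g' w1)⁻¹ * TT g' w := fun w => TT_smul _ _ _
  have hGT1 : TT G w1 = 1 := by rw [hGT, inv_mul_cancel₀ hg1']
  have hGn : ∀ w, ‖TT G w‖ ≤ ‖TT g' w‖ / c1 := by
    intro w
    rw [hGT, norm_mul, norm_inv, inv_mul_eq_div]
    exact div_le_div_of_nonneg_left (norm_nonneg _) hc1 hval1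
  -- values at the zeros
  have hval : ∀ ρ : Zt, (mu ρ : ℝ) * ‖TT G ((ρ : ℂ) - 1 / 2)‖ ^ 2 ≤
      (if (ρ : ℂ) = 1 / 2 + w1 then ((Q286.XG.mc (1 / 2 + w1) : ℕ) : ℝ) else 0) +
      (D * τ1 / c1) ^ 2 * ((mu ρ : ℝ) * (1 / (1 + ((ρ : ℂ).im - 0) ^ 2))) := by
    intro ρ
    by_cases hρ : (ρ : ℂ) = 1 / 2 + w1
    · rw [if_pos hρ, hρ, add_sub_cancel_left, hGT1, norm_one, one_pow, mul_one]
      have h1 : Q286.XG.mc (1 / 2 + w1) = mu (1 / 2 + w1) := by
        unfold Q286.XG.mc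
        rw [if_pos (hρ ▸ ρ.2)]
        rfl
      rw [h1]
      have : 0 ≤ (D * τ1 / c1) ^ 2 * ((mu (1 / 2 + w1) : ℝ) * (1 / (1 + ((1 / 2 + w1).im - 0) ^ 2))) := by
        positivity
      linarith
    rw [if_neg hρ, zero_add]
    set w := (ρ : ℂ) - 1 / 2 with hw
    have hwne : w ≠ w1 := by
      intro h
      apply hρ
      rw [← h, hw]; ring
    have hre : |w.re| ≤ 1 := half_re ρ
    have hX : L.X (1 / 2 + w) = 0 := by
      rw [hw, add_sub_cancel]
      exact ρ.2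
    have him : w.im = (ρ : ℂ).im := by rw [hw]; simp
    have h1 : ‖TT f w‖ ≤ C * τ := by
      have := hfb' w hre
      rwa [hHz w hwne hX, sub_zero] at this
    have h2 : ‖TT g w‖ ≤ C * Γ0 * τ1 / (1 + |w.im|) := by
      refine (hgn w hre).trans ?_
      have h6 : Γ0 / (1 + |w.im|) ^ 4 ≤ Γ0 / (1 + |w.im|) := by
        refine div_le_div_of_nonneg_left hΓ00.le (by positivity) ?_
        exact le_self_pow₀ (hone _) (by norm_num)
      calc ‖TT f w‖ * (Γ0 / (1 + |w.im|) ^ 4) ≤ (C * τ1) * (Γ0 / (1 + |w.im|)) :=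
            mul_le_mul (h1.trans (mul_le_mul_of_nonneg_left hττ' hC.le)) h6 (by positivity) (by positivity)
        _ = _ := by ring
    have h3 : ‖TT G w‖ ≤ D * τ1 / c1 / (1 + |w.im|) := by
      refine (hGn w).trans ?_
      have h7 := hgn' w hre
      have h8 : ‖TT g' w‖ ≤ D * τ1 / (1 + |w.im|) := by
        have : D * τ1 / (1 + |w.im|) = C * Γ0 * τ1 / (1 + |w.im|) + C0 * ((CX + C) * Γ0) * τ1 / (1 + |w.im|) := by
          rw [hD]; ring
        linarith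
      calc ‖TT g' w‖ / c1 ≤ D * τ1 / (1 + |w.im|) / c1 := div_le_div_of_nonneg_right h8 hc1.le
        _ = _ := by rw [div_right_comm]
    have h4 := sq_bound (norm_nonneg _) h3
    rw [him] at h4
    calc _ ≤ (mu ρ : ℝ) * ((D * τ1 / c1) ^ 2 * (1 / (1 + ((ρ : ℂ).im - 0) ^ 2))) :=
          mul_le_mul_of_nonneg_left h4 (Nat.cast_nonneg _)
      _ = _ := by ring
  obtain ⟨hs1, hs2⟩ := Q214.XG.tsum_single (L := L) w1
  have hs3 := (zsummable 0).mul_left ((D * τ1 / c1) ^ 2)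
  have hdom : Dom G := Summable.of_nonneg_of_le (fun ρ => by positivity) hval (hs1.add hs3)
  refine ⟨G, hg'.smul _, hGT1, ?_, ?_⟩
  · refine (hGn 0).trans (div_le_div_of_nonneg_right ?_ hc1.le)
    have h1 := hgn' 0 (by simp)
    have h2 := hgn 0 (by simp)
    have h3 := hfn 0 (by simp)
    simp only [Complex.zero_im, abs_zero, add_zero, one_pow, div_one] at h1 h2
    have h4 : C0 * ((CX + C) * Γ0) * τ1 ≤ c1 := by
      refine le_trans (mul_le_mul_of_nonneg_right ?_ hτ10.le) hDτ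
      rw [hD]
      have : 0 < C * Γ0 := by positivity
      linarith
    have h5 : ‖TT f 0‖ * Γ0 ≤ (‖H 0‖ + ‖H w1‖ / 2) * Γ0 := mul_le_mul_of_nonneg_right (by linarith) hΓ00.le
    linarith
  · have h8 : SS G ≤ (Q286.XG.mc (1 / 2 + w1) : ℝ) + (D * τ1 / c1) ^ 2 * Z := by
      unfold SS
      have e := hs1.tsum_add hs3
      rw [tsum_mul_left] at e
      refine (hdom.tsum_le_tsum hval (hs1.add hs3)).trans ?_
      rw [e]
      linarith
    refine h8.trans (add_le_add le_rfl ?_)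
    have h9 := hlim3 a haA3
    rw [← hτ1] at h9
    have h10 := pow_le_pow_left₀ (by positivity) h9 2
    have h11 : Real.exp (-(c / 2 * Real.exp (2 * a / L.m))) ^ 2 = Real.exp (-(c * Real.exp (2 * a / L.m))) := by
      rw [← Real.exp_nat_mul]; congr 1; push_cast; ring
    have h12 : (Real.sqrt (D ^ 2 * Z / c1 ^ 2 + 1) * τ1) ^ 2 = (D ^ 2 * Z / c1 ^ 2 + 1) * τ1 ^ 2 := by
      rw [mul_pow, Real.sq_sqrt (by positivity)]
    rw [h11, h12] at h10
    refine le_trans ?_ h10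
    have e : (D * τ1 / c1) ^ 2 * Z = (D ^ 2 * Z / c1 ^ 2) * τ1 ^ 2 := by ring
    rw [e]
    refine mul_le_mul_of_nonneg_right ?_ (by positivity)
    linarith

omit L in
/-- **job EXG-RATELN** -/
theorem rateLNG : Q286.XG.S_RateLN := by
  intro L γ c hc
  exact rateLN (L := L) (Complex.I * γ) (by simp) hc

end Pool.Agent.Q77.XG
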